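import Mathlib
import Pool.Agent.H158Z.Cont

set_option autoImplicit false

/-!
# An archimedean zeta function of a non-reduced arrangement without a pole at `-n/d`

For `f = x^9 (x - y)^3 y^2 (y - z)^2 z^2` in `ℂ^3` (so `n = 3`, `d = 18`), whose zero set is a
central essential indecomposable arrangement, `Z_{f,φ}` is holomorphic at `-3/18` for every
test function `φ`.
-/

namespace Pool.Agent.Results.MP_cf8c5a_ag.NoPole

open MeasureTheory

variable {n r : ℕ}

/-- The zero set in `ℂ^n` of a polynomial. -/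
def zeroSet (g : MvPolynomial (Fin n) ℂ) : Set (Fin n → ℂ) := {z | MvPolynomial.eval z g = 0}

/-- All the zero sets pass through one common point. -/
def IsCentral (f : Fin r → MvPolynomial (Fin n) ℂ) : Prop := (⋂ i, zeroSet (f i)).Nonempty

/-- The intersection of all the zero sets is a single point. -/
def IsEssential (f : Fin r → MvPolynomial (Fin n) ℂ) : Prop := ∃ z, (⋂ i, zeroSet (f i)) = {z}

/-- There is an affine-linear change of coordinates `ℂ^n = ℂ^{n₁} × ℂ^{n₂}` with `n₁, n₂ ≥ 1` in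
which every zero set has the form `H × ℂ^{n₂}` or `ℂ^{n₁} × H`. -/
def IsDecomposable (f : Fin r → MvPolynomial (Fin n) ℂ) : Prop :=
  ∃ n₁ n₂ : ℕ, 1 ≤ n₁ ∧ 1 ≤ n₂ ∧ ∃ e : (Fin n → ℂ) ≃ᵃ[ℂ] (Fin n₁ → ℂ) × (Fin n₂ → ℂ),
    ∀ i, (∃ H : Set (Fin n₁ → ℂ), e '' zeroSet (f i) = H ×ˢ (Set.univ : Set (Fin n₂ → ℂ))) ∨
      ∃ H : Set (Fin n₂ → ℂ), e '' zeroSet (f i) = (Set.univ : Set (Fin n₁ → ℂ)) ×ˢ H

/-- The archimedean zeta function `∫ |F(z)|^{2s} φ(z) dλ(z)` over `ℂ^n`. -/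
noncomputable def zeta (F : MvPolynomial (Fin n) ℂ) (φ : (Fin n → ℂ) → ℂ) (s : ℂ) : ℂ :=
  ∫ z, ((‖MvPolynomial.eval z F‖ : ℝ) : ℂ) ^ (2 * s) * φ z

/-- `G` is a meromorphic continuation of `Z_{F,φ}` to the half plane `Re s > σ`. -/
def IsContinuation (F : MvPolynomial (Fin n) ℂ) (φ : (Fin n → ℂ) → ℂ) (σ : ℝ) (G : ℂ → ℂ) : Prop :=
  MeromorphicOn G {s | σ < s.re} ∧ ∀ s, 0 < s.re → G s = zeta F φ s

section

open MvPolynomial

/-- the linear forms -/
noncomputable def ff : Fin 5 → MvPolynomial (Fin 3) ℂ := ![X 0, X 0 - X 1, X 1, X 1 - X 2, X 2]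

/-- the multiplicities -/
def bb : Fin 5 → ℕ := ![9, 3, 2, 2, 2]

lemma deg_sub (i j : Fin 3) (h : i ≠ j) : (X i - X j : MvPolynomial (Fin 3) ℂ).totalDegree = 1 := by
  refine ((isHomogeneous_X ℂ i).sub (isHomogeneous_X ℂ j)).totalDegree ?_
  intro h0
  have h1 := congrArg (MvPolynomial.eval (Pi.single i (1:ℂ))) h0
  simp [h.symm] at h1

lemma deg_one (i : Fin 5) : (ff i).totalDegree = 1 := by
  fin_cases i
  · exact totalDegree_X _
  · exact deg_sub 0 1 (by decide)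
  · exact totalDegree_X _
  · exact deg_sub 1 2 (by decide)
  · exact totalDegree_X _

lemma eval_prod (z : Fin 3 → ℂ) : ‖MvPolynomial.eval z (∏ i, ff i ^ bb i)‖ =
    Pool.Agent.H158Z.nf z := by
  simp only [Fin.prod_univ_five, map_mul, map_pow, norm_mul, norm_pow]
  simp only [ff, bb, Matrix.cons_val_zero, Matrix.cons_val_one, Matrix.cons_val, map_sub, eval_X]
  rfl

lemma zs_eq : (⋂ i, zeroSet (ff i)) = {0} := by
  ext z
  simp only [Set.mem_iInter, Set.mem_singleton_iff]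
  constructor
  · intro h
    have h0 : z 0 = 0 := by simpa [ff, zeroSet] using h 0
    have h2 : z 1 = 0 := by simpa [ff, zeroSet] using h 2
    have h4 : z 2 = 0 := by simpa [ff, zeroSet] using h 4
    funext i
    fin_cases i
    · exact h0
    · exact h2
    · exact h4
  · rintro rfl i
    fin_cases i <;> simp [ff, zeroSet]

/-- coordinates -/
noncomputable def co (i : Fin 3) : (Fin 3 → ℂ) →ₗ[ℂ] ℂ := LinearMap.proj i

lemma co_apply (i : Fin 3) (z : Fin 3 → ℂ) : co i z = z i := rfl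

/-- the linear functionals -/
noncomputable def ll : Fin 5 → ((Fin 3 → ℂ) →ₗ[ℂ] ℂ) := ![co 0, co 0 - co 1, co 1, co 1 - co 2, co 2]

lemma mem_zs (i : Fin 5) (z : Fin 3 → ℂ) : z ∈ zeroSet (ff i) ↔ ll i z = 0 := by
  fin_cases i <;> simp [zeroSet, ff, ll, co_apply]

lemma tri {V : Type} [AddCommGroup V] [Module ℂ V] {A B : Submodule ℂ V} (hAB : A ⊓ B = ⊥)
    {x y : V} (hx0 : x ≠ 0) (hy0 : y ≠ 0) (hy : y ∈ A ∨ y ∈ B) (hxy : x - y ∈ A ∨ x - y ∈ B)
    (hx : x ∈ A) : y ∈ A := by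
  rcases hy with hy | hy
  · exact hy
  · exfalso
    rcases hxy with h | h
    · have h1 : y ∈ A := by
        have := A.sub_mem hx h
        simpa using this
      have h2 : y ∈ A ⊓ B := ⟨h1, hy⟩
      rw [hAB] at h2
      exact hy0 ((Submodule.mem_bot ℂ).1 h2)
    · have h1 : x ∈ B := by
        have := B.add_mem h hy
        simpa using this
      have h2 : x ∈ A ⊓ B := ⟨hx, h1⟩
      rw [hAB] at h2
      exact hx0 ((Submodule.mem_bot ℂ).1 h2)

lemma ll_ne (i : Fin 5) : ll i ≠ 0 := by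
  intro h
  fin_cases i
  · have := LinearMap.congr_fun h ![1, 0, 0]
    simp [ll, co_apply] at this
  · have := LinearMap.congr_fun h ![1, 0, 0]
    simp [ll, co_apply] at this
  · have := LinearMap.congr_fun h ![0, 1, 0]
    simp [ll, co_apply] at this
  · have := LinearMap.congr_fun h ![0, 1, 0]
    simp [ll, co_apply] at this
  · have := LinearMap.congr_fun h ![0, 0, 1]
    simp [ll, co_apply] at this

lemma all_in {A B : Submodule ℂ ((Fin 3 → ℂ) →ₗ[ℂ] ℂ)} (hAB : A ⊓ B = ⊥)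
    (h : ∀ i, ll i ∈ A ∨ ll i ∈ B) (h0 : ll 0 ∈ A) : ll 0 ∈ A ∧ ll 2 ∈ A ∧ ll 4 ∈ A := by
  have h2 : ll 2 ∈ A := tri hAB (ll_ne 0) (ll_ne 2) (h 2) (h 1) h0
  have h4 : ll 4 ∈ A := tri hAB (ll_ne 2) (ll_ne 4) (h 4) (h 3) h2
  exact ⟨h0, h2, h4⟩

lemma eq_zero_of {z : Fin 3 → ℂ} (h0 : ll 0 z = 0) (h2 : ll 2 z = 0) (h4 : ll 4 z = 0) : z = 0 := by
  funext i
  fin_cases i
  · exact h0
  · exact h2
  · exact h4

lemma indec : ¬ IsDecomposable ff := by
  rintro ⟨n₁, n₂, hn₁, hn₂, e, he⟩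
  let L := e.linear
  let A : Submodule ℂ ((Fin 3 → ℂ) →ₗ[ℂ] ℂ) :=
    { carrier := {l | ∀ v : Fin n₂ → ℂ, l (L.symm (0, v)) = 0}
      add_mem' := by intro a b ha hb v; simp [ha v, hb v]
      zero_mem' := by intro v; simp
      smul_mem' := by intro c a ha v; simp [ha v] }
  let B : Submodule ℂ ((Fin 3 → ℂ) →ₗ[ℂ] ℂ) :=
    { carrier := {l | ∀ v : Fin n₁ → ℂ, l (L.symm (v, 0)) = 0}
      add_mem' := by intro a b ha hb v; simp [ha v, hb v]
      zero_mem' := by intro v; simp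
      smul_mem' := by intro c a ha v; simp [ha v] }
  have hAB : A ⊓ B = ⊥ := by
    rw [eq_bot_iff]
    rintro l ⟨hA, hB⟩
    rw [Submodule.mem_bot]
    apply LinearMap.ext
    intro z
    obtain ⟨w, rfl⟩ := L.symm.surjective z
    have h1 : w = (0, w.2) + (w.1, 0) := by simp
    rw [h1, map_add, map_add, hA, hB]
    simp
  have hshift : ∀ w, e (L.symm w) = e 0 + w := by
    intro w
    have := e.map_vadd 0 (L.symm w)
    simp only [vadd_eq_add, add_zero] at this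
    rw [this]
    show L (L.symm w) + e 0 = _
    rw [LinearEquiv.apply_symm_apply, add_comm]
  have h : ∀ i, ll i ∈ A ∨ ll i ∈ B := by
    intro i
    have hz : (0 : Fin 3 → ℂ) ∈ zeroSet (ff i) := by rw [mem_zs]; simp
    rcases he i with ⟨H, hH⟩ | ⟨H, hH⟩
    · left
      intro v
      have h1 : e 0 ∈ e '' zeroSet (ff i) := ⟨0, hz, rfl⟩
      rw [hH] at h1
      have h2 : e (L.symm (0, v)) ∈ e '' zeroSet (ff i) := by
        rw [hH, hshift]
        refine ⟨?_, Set.mem_univ _⟩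
        simpa using h1.1
      obtain ⟨z, hz1, hz2⟩ := h2
      rw [← e.injective hz2, ← mem_zs]
      exact hz1
    · right
      intro v
      have h1 : e 0 ∈ e '' zeroSet (ff i) := ⟨0, hz, rfl⟩
      rw [hH] at h1
      have h2 : e (L.symm (v, 0)) ∈ e '' zeroSet (ff i) := by
        rw [hH, hshift]
        refine ⟨Set.mem_univ _, ?_⟩
        simpa using h1.2
      obtain ⟨z, hz1, hz2⟩ := h2
      rw [← e.injective hz2, ← mem_zs]
      exact hz1
  rcases h 0 with h0 | h0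
  · obtain ⟨a0, a2, a4⟩ := all_in hAB h h0
    have h1 := eq_zero_of (a0 (fun _ => 1)) (a2 (fun _ => 1)) (a4 (fun _ => 1))
    have h2 : ((0, fun _ => 1) : (Fin n₁ → ℂ) × (Fin n₂ → ℂ)) = 0 := by
      rw [← L.apply_symm_apply (0, fun _ => 1), h1, map_zero]
    have h3 := congrFun (congrArg Prod.snd h2) ⟨0, hn₂⟩
    exact one_ne_zero h3
  · obtain ⟨a0, a2, a4⟩ := all_in (A := B) (B := A) (by rw [inf_comm]; exact hAB)
      (fun i => (h i).symm) h0
    have h1 := eq_zero_of (a0 (fun _ => 1)) (a2 (fun _ => 1)) (a4 (fun _ => 1))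
    have h2 : ((fun _ => 1, 0) : (Fin n₁ → ℂ) × (Fin n₂ → ℂ)) = 0 := by
      rw [← L.apply_symm_apply (fun _ => 1, 0), h1, map_zero]
    have h3 := congrFun (congrArg Prod.fst h2) ⟨0, hn₁⟩
    exact one_ne_zero h3

lemma sum_b : (∑ i, (bb i : ℂ)) = 18 := by
  rw [Fin.sum_univ_five]
  simp only [bb, Matrix.cons_val_zero, Matrix.cons_val_one, Matrix.cons_val]
  norm_num

end

open Pool.Agent.H158Z

lemma zeta_eq (φ : (Fin 3 → ℂ) → ℂ) (s : ℂ) :
    zeta (∏ i, ff i ^ bb i) φ s = ∫ p, Ds s p * φ p := by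
  unfold zeta Ds
  simp only [eval_prod]

lemma s0_mem : (-(3 / 18) : ℂ) ∈ UU := by
  show -(17 / 100) < (-(3 / 18) : ℂ).re
  norm_num

lemma den_ne : (9 * (-(3 / 18) : ℂ) + 1) ^ 2 * (14 * (-(3 / 18) : ℂ) + 2) ≠ 0 := by norm_num

theorem final {φ : (Fin 3 → ℂ) → ℂ} (hφ : TF φ) :
    (∃ G, IsContinuation (∏ i, ff i ^ bb i) φ (-(17 / 100)) G ∧ AnalyticAt ℂ G (-(3 / 18))) ∧
    ∀ G, IsContinuation (∏ i, ff i ^ bb i) φ (-(17 / 100)) G →
      0 ≤ meromorphicOrderAt G (-(3 / 18)) := by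
  obtain ⟨F, hF, hF'⟩ := main_cont hφ
  have hFan : AnalyticOnNhd ℂ F UU := hF.analyticOnNhd UU_open
  have hden : ∀ s : ℂ, AnalyticAt ℂ (fun s : ℂ => (9 * s + 1) ^ 2 * (14 * s + 2)) s := by
    intro s; fun_prop
  let G₁ : ℂ → ℂ := fun s => F s / ((9 * s + 1) ^ 2 * (14 * s + 2))
  have hG₁m : MeromorphicOn G₁ UU := fun s hs =>
    ((hFan s hs).meromorphicAt).div (hden s).meromorphicAt
  have hG₁a : AnalyticAt ℂ G₁ (-(3 / 18)) := (hFan _ s0_mem).div (hden _) den_ne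
  have hG₁e : ∀ s : ℂ, 0 < s.re → G₁ s = zeta (∏ i, ff i ^ bb i) φ s := by
    intro s hs
    have h1 := hF' s hs
    rw [zeta_eq]
    show F s / ((9 * s + 1) ^ 2 * (14 * s + 2)) = _
    rw [← h1]
    have h2 : (9 * s + 1) ≠ 0 := by
      intro h
      have := congrArg Complex.re h
      simp at this
      linarith
    have h3 : (14 * s + 2) ≠ 0 := by
      intro h
      have := congrArg Complex.re h
      simp at this
      linarith
    have h4 : (9 * s + 1) ^ 2 * (14 * s + 2) ≠ 0 := mul_ne_zero (pow_ne_zero 2 h2) h3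
    exact mul_div_cancel_left₀ _ h4
  refine ⟨⟨G₁, ⟨hG₁m, hG₁e⟩, hG₁a⟩, ?_⟩
  rintro G ⟨hGm, hGe⟩
  have hsub : MeromorphicOn (G - G₁) UU := fun s hs => (hGm s hs).sub (hG₁m s hs)
  have h1U : (1 : ℂ) ∈ UU := by
    show -(17 / 100) < (1 : ℂ).re
    norm_num
  have htop : meromorphicOrderAt (G - G₁) 1 = ⊤ := by
    rw [meromorphicOrderAt_eq_top_iff]
    have h2 : ∀ᶠ s : ℂ in nhds 1, 0 < s.re :=
      (isOpen_lt continuous_const Complex.continuous_re).mem_nhds (by simp)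
    filter_upwards [nhdsWithin_le_nhds h2] with s hs
    rw [Pi.sub_apply, hGe s hs, hG₁e s hs, sub_self]
  have htop2 : meromorphicOrderAt (G - G₁) (-(3 / 18)) = ⊤ := by
    by_contra hne
    exact (hsub.meromorphicOrderAt_ne_top_of_isPreconnected UU_convex.isPreconnected s0_mem h1U hne)
      htop
  rw [meromorphicOrderAt_eq_top_iff] at htop2
  have hcongr : G =ᶠ[nhdsWithin (-(3 / 18)) {-(3 / 18)}ᶜ] G₁ := by
    filter_upwards [htop2] with s hs
    exact sub_eq_zero.1 hs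
  rw [meromorphicOrderAt_congr hcongr]
  exact hG₁a.meromorphicOrderAt_nonneg

/-- **A non-reduced arrangement whose archimedean zeta functions have no pole at `-n/d`.**
There are degree-one polynomials `f₁, …, f₅` in three variables and positive multiplicities
`b₁, …, b₅` (with `d = ∑ bᵢ = 18`) such that the arrangement is central, essential and
indecomposable, and for every test function `φ` the zeta function `Z_{f,φ}`,
`f = ∏ fᵢ ^ bᵢ`, has a meromorphic continuation to `Re s > -17/100` that is analytic at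
`-n/d = -3/18`, and every meromorphic continuation to this half plane (in particular the
restriction of one to `ℂ`) has non-negative order at `-n/d`. -/
theorem result : ∃ (f : Fin 5 → MvPolynomial (Fin 3) ℂ) (b : Fin 5 → ℕ),
    (∀ i, (f i).totalDegree = 1) ∧ (∀ i, 0 < b i) ∧ IsCentral f ∧ IsEssential f ∧
    ¬ IsDecomposable f ∧
    ∀ φ : (Fin 3 → ℂ) → ℂ, ContDiff ℝ (⊤ : ℕ∞) φ → HasCompactSupport φ →
      (∃ G, IsContinuation (∏ i, f i ^ b i) φ (-(17 / 100)) G ∧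
        AnalyticAt ℂ G (-(3 / ∑ i, (b i : ℂ)))) ∧
      ∀ G, IsContinuation (∏ i, f i ^ b i) φ (-(17 / 100)) G →
        0 ≤ meromorphicOrderAt G (-(3 / ∑ i, (b i : ℂ))) := by
  refine ⟨ff, bb, deg_one, by decide, ⟨0, by rw [zs_eq]; rfl⟩, ⟨0, zs_eq⟩, indec, ?_⟩
  intro φ h1 h2
  rw [sum_b]
  exact final ⟨h1, h2⟩

end Pool.Agent.Results.MP_cf8c5a_ag.NoPole
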